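import Mathlib
import Pool.Agent.H93.PI.Bridge
import Pool.Agent.H55.FW.GW
import Pool.Agent.H55.FE.Full

set_option autoImplicit false

/-!
# Power ideals in the degrees `d`, `d + 1`, `d + 2`
-/

namespace Pool.Agent.H16.PI

open MvPolynomial Pool.Agent.H93.PI Pool.Agent.W608.PR

/-- Simple points. -/
theorem G_one {E D : ℕ} (hE : 1 ≤ E) : G ℂ E 1 D := by
  intro n w hw d _ h
  have hv : ∀ v ∈ (Finset.univ.val.map w : Multiset ℕ), v ≤ 1 := by
    intro v hv
    obtain ⟨i, _, rfl⟩ := Multiset.mem_map.1 hv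
    exact hw i
  refine Pool.Agent.H55.FE.full E d n w hE ?_
  have h1 := Pool.Agent.H55.FE.hv_add_le (n := E + 1) (by omega) d 0 (Finset.univ.val.map w) hv
  rw [zero_add, (K4H38FP.sys (n := E + 1) (by omega) d).h7] at h1
  have h2 := Pool.Agent.H55.FE.sum_sz_simple E (Finset.univ.val.map w) hv
  rw [Multiset.map_map] at h2
  have h3 : (Multiset.map (sz E ∘ w) Finset.univ.val).sum =
      ∑ i, (w i + E).choose (E + 1) := rfl
  rw [h3] at h2
  have h4 : (E + 1 + d).choose (E + 1) = (d + E + 1).choose (E + 1) := by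
    congr 1
    omega
  rw [h4] at h1
  omega

/-- The degrees up to `d + 2`, with the theorem for triple points. -/
theorem trip (n r d : ℕ) (hn : 5 ≤ n) (hd : 3 ≤ d) (hG : G ℂ (n - 2) 3 (d + 1)) :
    ∃ Φ : MvPolynomial (Fin r × Fin n) ℂ, Φ ≠ 0 ∧
      ∀ a : Fin r × Fin n → ℂ, eval a Φ ≠ 0 → ∀ k : ℕ,
        (k ≤ d + 2 ∨ co n r d (d + 2) ≤ 0) → hilb d a k = fro n r d k := by
  obtain ⟨E, rfl⟩ : ∃ E, n = E + 2 := ⟨n - 2, by omega⟩
  rw [Nat.add_sub_cancel] at hG
  have h2 : d + 2 ≤ 2 * d - 1 := by omega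
  obtain ⟨Φ, hΦ, hΦ'⟩ := main_fro (E := E) (r := r) (d := d) (k₀ := d + 2) (by omega) h2
    fun k hdk hk => by
      rcases Nat.lt_or_ge d k with h | h
      · intro s w hw d' hd' htot
        exact hG s w (fun i => (hw i).trans (by omega)) d' (by omega) htot
      · have h3 : k = d := by omega
        subst h3
        have h4 : k + 1 - k = 1 := by omega
        rw [h4]
        exact G_one (by omega)
  refine ⟨Φ, hΦ, fun a ha k hk => ?_⟩
  rcases hk with hk | hk
  · exact (hΦ' a ha).1 k hk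
  · refine (hΦ' a ha).2 ?_ k
    rw [co_eq (by omega) h2, sub_nonpos] at hk
    exact_mod_cast hk

end Pool.Agent.H16.PI
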